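import Pool.Agent.Y649.Mesh.Rand

open Pool.Agent.Y649.Mesh

namespace Pool.Agent.Results.MP_c7bce0_lc.RandomizedMeshLower

/-- On the `n × n` mesh, `m = n ^ 2`, the optimal randomized competitive ratio (expected makespan,
instance fixed in advance) for malleable jobs with precedence constraints is at least
`c (log m / log log m) ^ 2` for all large `n`. -/
theorem result : ∃ c : ℝ, 0 < c ∧ ∀ᶠ n : ℕ in Filter.atTop,
    c * (Real.log ((n : ℝ) ^ 2) / Real.log (Real.log ((n : ℝ) ^ 2))) ^ 2 ≤ Rrand n :=
  rand_main

end Pool.Agent.Results.MP_c7bce0_lc.RandomizedMeshLower
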